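import Pool.Agent.W782.FG.Split
import Pool.Agent.W45.FG.Meas
import Pool.Agent.W930.FG.Score

/-!
Markov property at time one, hitting probabilities and a resampling lemma for the frog model
on coded trees.
-/

set_option autoImplicit false

namespace Pool.Agent.R766.FT

open MeasureTheory ProbabilityTheory Filter FrogGW
open scoped ENNReal NNReal Topology

/-- The law of a driving sequence. -/
noncomputable abbrev P : Measure (ℕ → ℝ) := Measure.infinitePi fun _ : ℕ => unif

/-- The shifted sequence. -/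
def sft (u : ℕ → ℝ) : ℕ → ℝ := fun k => u (k + 1)

lemma walk_succ' (Z : Env) (x : List ℕ) (u : ℕ → ℝ) (k : ℕ) :
    walk Z x u (k + 1) = walk Z (step Z x (u 0)) (sft u) k := by
  induction k with
  | zero => rfl
  | succ k ih =>
    rw [walk, ih]
    rfl

lemma meas_of_fiber {X : Type*} [MeasurableSpace X] (Z : Env) (x : List ℕ)
    (H : List ℕ → X → ℝ≥0∞) (hH : ∀ y, Measurable (H y)) :
    Measurable (fun q : ℝ × X => H (step Z x q.1) q.2) := by
  obtain ⟨g, h, hg, hgh⟩ := Pool.Agent.W45.FG.step_fac Z x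
  have h1 : Measurable (fun q : ℕ × X => H (h q.1) q.2) := by
    apply measurable_from_prod_countable_right
    intro n
    exact hH (h n)
  have h2 : Measurable (fun q : ℝ × X => (g q.1, q.2)) :=
    (hg.comp measurable_fst).prodMk measurable_snd
  have h3 := h1.comp h2
  have h4 : (fun q : ℝ × X => H (step Z x q.1) q.2) = (fun q : ℕ × X => H (h q.1) q.2) ∘
      (fun q : ℝ × X => (g q.1, q.2)) := by
    funext q
    simp only [Function.comp, hgh]
  rw [h4]
  exact h3

/-- The Markov property at time one. -/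
lemma markov0 (Z : Env) (x : List ℕ) (H : List ℕ → (ℕ → ℝ) → ℝ≥0∞)
    (hH : ∀ y, Measurable (H y)) :
    ∫⁻ u, H (step Z x (u 0)) (sft u) ∂P = ∫⁻ s, ∫⁻ u, H (step Z x s) u ∂P ∂unif := by
  have hm := meas_of_fiber Z x H hH
  have h1 := (Pool.Agent.W782.FG.seq ℝ unif).lintegral_comp hm
  rw [lintegral_prod _ hm.aemeasurable] at h1
  exact h1

/-- The set of driving sequences whose walk from `x` hits `A`. -/
def hitSet (Z : Env) (A : Set (List ℕ)) (x : List ℕ) : Set (ℕ → ℝ) :=
  {u | ∃ k, walk Z x u k ∈ A}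

lemma meas_walk_mem (Z : Env) (A : Set (List ℕ)) (x : List ℕ) (k : ℕ) :
    MeasurableSet {u | walk Z x u k ∈ A} := by
  have : {u | walk Z x u k ∈ A} = ⋃ y ∈ A, {u | walk Z x u k = y} := by
    ext u; simp
  rw [this]
  exact MeasurableSet.biUnion (Set.to_countable A) (fun y _ => Pool.Agent.W45.FG.meas_walk Z x k y)

lemma meas_hitSet (Z : Env) (A : Set (List ℕ)) (x : List ℕ) : MeasurableSet (hitSet Z A x) := by
  have : hitSet Z A x = ⋃ k, {u | walk Z x u k ∈ A} := by
    ext u; simp [hitSet]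
  rw [this]
  exact MeasurableSet.iUnion (fun k => meas_walk_mem Z A x k)

/-- The hitting probability. -/
noncomputable def hp (Z : Env) (A : Set (List ℕ)) (x : List ℕ) : ℝ := P.real (hitSet Z A x)

lemma hp_nonneg (Z : Env) (A : Set (List ℕ)) (x : List ℕ) : 0 ≤ hp Z A x := measureReal_nonneg

lemma hp_le_one (Z : Env) (A : Set (List ℕ)) (x : List ℕ) : hp Z A x ≤ 1 := measureReal_le_one

lemma hp_mem (Z : Env) (A : Set (List ℕ)) {x : List ℕ} (hx : x ∈ A) : hp Z A x = 1 := by
  have : hitSet Z A x = Set.univ := by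
    ext u
    simp only [hitSet, Set.mem_ofPred_eq, Set.mem_univ, iff_true]
    exact ⟨0, hx⟩
  unfold hp
  rw [this]
  simp

/-- Probability of a shifted event. -/
lemma prob_step (Z : Env) (x : List ℕ) (B : List ℕ → Set (ℕ → ℝ))
    (hB : ∀ y, MeasurableSet (B y)) :
    P {u | sft u ∈ B (step Z x (u 0))} = ∫⁻ s, P (B (step Z x s)) ∂unif := by
  have h1 := markov0 Z x (fun y => (B y).indicator 1) (fun y => measurable_one.indicator (hB y))
  have h2 : ∀ s, ∫⁻ u, (B (step Z x s)).indicator 1 u ∂P = P (B (step Z x s)) := by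
    intro s
    rw [lintegral_indicator_one (hB _)]
  simp only [h2] at h1
  rw [← h1]
  have h3 : (fun u : ℕ → ℝ => (B (step Z x (u 0))).indicator (1 : (ℕ → ℝ) → ℝ≥0∞) (sft u))
      = ({u | sft u ∈ B (step Z x (u 0))} : Set (ℕ → ℝ)).indicator 1 := by
    funext u
    by_cases h : sft u ∈ B (step Z x (u 0))
    · have h' : u ∈ ({u | sft u ∈ B (step Z x (u 0))} : Set (ℕ → ℝ)) := h
      rw [Set.indicator_of_mem h, Set.indicator_of_mem h']; rfl
    · have h' : u ∉ ({u | sft u ∈ B (step Z x (u 0))} : Set (ℕ → ℝ)) := h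
      rw [Set.indicator_of_notMem h, Set.indicator_of_notMem h']
  have h4 : MeasurableSet ({u | sft u ∈ B (step Z x (u 0))} : Set (ℕ → ℝ)) := by
    have h5 : Measurable (fun u : ℕ → ℝ => (B (step Z x (u 0))).indicator
        (1 : (ℕ → ℝ) → ℝ≥0∞) (sft u)) := by
      have h6 := meas_of_fiber Z x (fun y => (B y).indicator (1 : (ℕ → ℝ) → ℝ≥0∞))
        (fun y => measurable_one.indicator (hB y))
      have h7 : Measurable (fun u : ℕ → ℝ => (u 0, sft u)) :=
        Pool.Agent.W45.FG.meas_split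
      exact h6.comp h7
    have h8 : {u | sft u ∈ B (step Z x (u 0))} = (fun u : ℕ → ℝ =>
        (B (step Z x (u 0))).indicator (1 : (ℕ → ℝ) → ℝ≥0∞) (sft u)) ⁻¹' {1} := by
      ext u
      simp only [Set.mem_ofPred_eq, Set.mem_preimage, Set.mem_singleton_iff]
      by_cases h : sft u ∈ B (step Z x (u 0))
      · rw [Set.indicator_of_mem h]; simp [h]
      · rw [Set.indicator_of_notMem h]; simp [h]
    rw [h8]
    exact h5 (measurableSet_singleton _)
  rw [h3, lintegral_indicator_one h4]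

/-- Expectation of a bounded function of the new position: interior vertex. -/
lemma step_cons (Z : Env) (i : ℕ) (v : List ℕ) (f : List ℕ → ℝ≥0∞) :
    ∫⁻ s, f (step Z (i :: v) s) ∂unif = ((Z (i :: v) : ℝ≥0∞) + 1)⁻¹ *
        (f v + ∑ j ∈ Finset.range (Z (i :: v)), f (j :: i :: v)) :=
  (Pool.Agent.W930.FG.taskStep Z f).2 i v

lemma step_nil (Z : Env) (hZ : 1 ≤ Z []) (f : List ℕ → ℝ≥0∞) :
    ∫⁻ s, f (step Z [] s) ∂unif = (Z [] : ℝ≥0∞)⁻¹ * ∑ i ∈ Finset.range (Z []), f [i] :=
  (Pool.Agent.W930.FG.taskStep Z f).1 hZ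

lemma hit_of_shift (Z : Env) (A : Set (List ℕ)) (x : List ℕ) :
    {u | sft u ∈ hitSet Z A (step Z x (u 0))} ⊆ hitSet Z A x := by
  rintro u ⟨k, hk⟩
  exact ⟨k + 1, by rw [walk_succ']; exact hk⟩

lemma lint_hit_le (Z : Env) (A : Set (List ℕ)) (x : List ℕ) :
    ∫⁻ s, P (hitSet Z A (step Z x s)) ∂unif ≤ P (hitSet Z A x) := by
  rw [← prob_step Z x (hitSet Z A) (meas_hitSet Z A)]
  exact measure_mono (hit_of_shift Z A x)

lemma ofReal_hp (Z : Env) (A : Set (List ℕ)) (x : List ℕ) :
    ENNReal.ofReal (hp Z A x) = P (hitSet Z A x) := by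
  unfold hp
  rw [ofReal_measureReal]

/-- The hitting probability dominates its average over the neighbours. -/
lemma hp_cons (Z : Env) (A : Set (List ℕ)) (i : ℕ) (v : List ℕ) :
    hp Z A v + ∑ j ∈ Finset.range (Z (i :: v)), hp Z A (j :: i :: v)
      ≤ ((Z (i :: v) : ℝ) + 1) * hp Z A (i :: v) := by
  have h1 := lint_hit_le Z A (i :: v)
  rw [step_cons Z i v (fun y => P (hitSet Z A y))] at h1
  simp only [← ofReal_hp] at h1
  rw [← ENNReal.ofReal_sum_of_nonneg (fun j _ => hp_nonneg _ _ _),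
    ← ENNReal.ofReal_add (hp_nonneg _ _ _) (Finset.sum_nonneg (fun j _ => hp_nonneg _ _ _))] at h1
  have h2 : ((Z (i :: v) : ℝ≥0∞) + 1) = ENNReal.ofReal ((Z (i :: v) : ℝ) + 1) := by
    rw [ENNReal.ofReal_add (by positivity) zero_le_one, ENNReal.ofReal_natCast, ENNReal.ofReal_one]
  have h3 : (0 : ℝ) < (Z (i :: v) : ℝ) + 1 := by positivity
  rw [h2, ← ENNReal.ofReal_inv_of_pos h3, ← ENNReal.ofReal_mul (by positivity),
    ENNReal.ofReal_le_ofReal_iff (hp_nonneg _ _ _)] at h1
  rw [inv_mul_le_iff₀ h3] at h1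
  exact h1

lemma hp_nil (Z : Env) (hZ : 1 ≤ Z []) (A : Set (List ℕ)) :
    ∑ j ∈ Finset.range (Z []), hp Z A [j] ≤ (Z [] : ℝ) * hp Z A [] := by
  have h1 := lint_hit_le Z A []
  rw [step_nil Z hZ (fun y => P (hitSet Z A y))] at h1
  simp only [← ofReal_hp] at h1
  rw [← ENNReal.ofReal_sum_of_nonneg (fun j _ => hp_nonneg _ _ _)] at h1
  have h3 : (0 : ℝ) < (Z [] : ℝ) := by
    have : 0 < Z [] := hZ
    exact_mod_cast this
  rw [← ENNReal.ofReal_natCast, ← ENNReal.ofReal_inv_of_pos h3,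
    ← ENNReal.ofReal_mul (by positivity),
    ENNReal.ofReal_le_ofReal_iff (hp_nonneg _ _ _)] at h1
  rw [inv_mul_le_iff₀ h3] at h1
  exact h1

/-! ### Resampling -/

/-- Resampling the coordinates outside `S` does not change a product measure. -/
lemma resample {ι X : Type*} [MeasurableSpace X] (μ : Measure X) [IsProbabilityMeasure μ]
    (S : Set ι) [DecidablePred (· ∈ S)] :
    ((Measure.infinitePi fun _ : ι => μ).prod (Measure.infinitePi fun _ : ι => μ)).map
      (fun q : (ι → X) × (ι → X) => fun i => if i ∈ S then q.1 i else q.2 i)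
      = Measure.infinitePi fun _ : ι => μ := by
  classical
  have hg : Measurable (fun q : (ι → X) × (ι → X) => fun i => if i ∈ S then q.1 i else q.2 i) := by
    refine measurable_pi_lambda _ (fun i => ?_)
    by_cases h : i ∈ S
    · simp only [if_pos h]; exact (measurable_pi_apply i).comp measurable_fst
    · simp only [if_neg h]; exact (measurable_pi_apply i).comp measurable_snd
  refine Measure.eq_infinitePi (fun _ : ι => μ) ?_
  intro s t ht
  rw [Measure.map_apply hg (MeasurableSet.pi s.countable_toSet (fun i _ => ht i))]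
  have h1 : (fun q : (ι → X) × (ι → X) => fun i => if i ∈ S then q.1 i else q.2 i) ⁻¹'
      (Set.pi (s : Set ι) t) =
      (Set.pi ((s.filter (· ∈ S) : Finset ι) : Set ι) t) ×ˢ
        (Set.pi ((s.filter (· ∉ S) : Finset ι) : Set ι) t) := by
    ext ⟨q1, q2⟩
    simp only [Set.mem_preimage, Set.mem_pi, Finset.mem_coe, Set.mem_prod, Finset.mem_filter]
    constructor
    · intro h
      refine ⟨fun i hi => ?_, fun i hi => ?_⟩
      · have := h i hi.1
        rwa [if_pos hi.2] at this
      · have := h i hi.1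
        rwa [if_neg hi.2] at this
    · rintro ⟨h1, h2⟩ i hi
      by_cases hS : i ∈ S
      · rw [if_pos hS]; exact h1 i ⟨hi, hS⟩
      · rw [if_neg hS]; exact h2 i ⟨hi, hS⟩
  rw [h1, Measure.prod_prod, Measure.infinitePi_pi _ (fun i _ => ht i),
    Measure.infinitePi_pi _ (fun i _ => ht i), Finset.prod_filter_mul_prod_filter_not]

end Pool.Agent.R766.FT
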