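import Pool.Agent.R766.FT.Speed

/-!
The frog model on the tree with star traps is not transient.
-/

set_option autoImplicit false

namespace Pool.Agent.R766.FT

open MeasureTheory ProbabilityTheory Filter FrogGW
open scoped ENNReal NNReal Topology

variable (β M : ℕ → ℕ)

/-! ### Rays -/

lemma inTree_suffix (Z : Env) {x y : List ℕ} (h : y <:+ x) (hx : InTree Z x) : InTree Z y := by
  induction x with
  | nil =>
    have : y = [] := List.suffix_nil.1 h
    rw [this]; exact hx
  | cons i v ih =>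
    rcases List.suffix_cons_iff.1 h with h | h
    · rw [h]; exact hx
    · exact ih h hx.1

lemma visited_suffix (Z : Env) (hZ : 1 ≤ Z []) (u : ℕ → ℝ) (k : ℕ) :
    ∀ z, z <:+ walk Z [] u k → ∃ k', walk Z [] u k' = z := by
  induction k with
  | zero =>
    intro z hz
    exact ⟨0, (List.suffix_nil.1 hz).symm⟩
  | succ k ih =>
    intro z hz
    have hw : walk Z [] u (k + 1) = step Z (walk Z [] u k) (u k) := rfl
    rcases step_cases Z hZ (walk Z [] u k) (u k) with ⟨j, _, h⟩ | ⟨i, h⟩
    · rw [← hw] at h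
      rw [h] at hz
      rcases List.suffix_cons_iff.1 hz with h1 | h1
      · exact ⟨k + 1, by rw [h, h1]⟩
      · exact ih z h1
    · rw [← hw] at h
      refine ih z ?_
      rw [h]
      exact hz.trans (List.suffix_cons i _)

/-- The walk from the root eventually stays above `y`. -/
def raySet (Z : Env) (y : List ℕ) : Set (ℕ → ℝ) :=
  {u | ∃ K, ∀ k, K ≤ k → y <:+ walk Z [] u k}

lemma meas_raySet (Z : Env) (y : List ℕ) : MeasurableSet (raySet Z y) := by
  have : raySet Z y = ⋃ K : ℕ, ⋂ (k : ℕ) (_ : K ≤ k), {u | walk Z [] u k ∈ {w | y <:+ w}} := by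
    ext u; simp [raySet]
  rw [this]
  exact MeasurableSet.iUnion (fun K => MeasurableSet.iInter (fun k => MeasurableSet.iInter
    (fun _ => meas_walk_mem Z _ [] k)))

lemma suffix_eq {y z w : List ℕ} (hy : y <:+ w) (hz : z <:+ w) (h : y.length = z.length) :
    y = z := by
  rw [List.suffix_iff_eq_drop] at hy hz
  rw [hy, hz, h]

lemma raySet_unique (Z : Env) {y z : List ℕ} {u : ℕ → ℝ} (h : y.length = z.length)
    (hy : u ∈ raySet Z y) (hz : u ∈ raySet Z z) : y = z := by
  obtain ⟨K1, h1⟩ := hy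
  obtain ⟨K2, h2⟩ := hz
  exact suffix_eq (h1 (K1 + K2) (by omega)) (h2 (K1 + K2) (by omega)) h

lemma raySet_visits (Z : Env) (hZ : 1 ≤ Z []) {y z : List ℕ} {u : ℕ → ℝ} (hy : u ∈ raySet Z y)
    (hz : z <:+ y) : ∃ k, walk Z [] u k = z := by
  obtain ⟨K, h⟩ := hy
  exact visited_suffix Z hZ u K z (hz.trans (h K le_rfl))

theorem ae_up' (hβ : ∀ n, 6 ≤ β n) (hsum : ∀ N, ∑ j ∈ Finset.range N, aa β j ≤ 1 / 2) :
    ∀ᵐ u ∂P, ∃ K, ∀ j, 0 ∉ walk (ZZ β M) [] u (K + j) ∧
      ∃ i, walk (ZZ β M) [] u (K + j + 1) = (i + 1) :: walk (ZZ β M) [] u (K + j) := by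
  have hx : InTree (ZZ β M) [] := trivial
  have h2 : ∀ᵐ u ∂P, ∀ K, ¬ ∀ k, K ≤ k → 0 ∈ walk (ZZ β M) [] u k := by
    rw [ae_all_iff]
    intro K
    exact measure_eq_zero_iff_ae_notMem.1 (stay_from β M K [] hx)
  filter_upwards [ae_finite_bad β M hβ hsum [], h2] with u h1 h2
  obtain ⟨K0, hK0⟩ := eventually_atTop.1 h1
  have h3 := h2 K0
  push Not at h3
  obtain ⟨K, hK, hKx⟩ := h3
  have h0 : ∀ j, 0 ∉ walk (ZZ β M) [] u (K + j) := by
    intro j
    induction j with
    | zero => exact hKx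
    | succ j ih =>
      have h4 := hK0 (K + j) (by omega)
      simp only [badAt, Set.mem_ofPred_eq, Bad, not_and, not_not] at h4
      obtain ⟨i, hi⟩ := h4 ih
      have h5 : K + (j + 1) = K + j + 1 := by omega
      rw [h5, hi]
      intro h
      rcases List.mem_cons.1 h with h | h
      · omega
      · exact ih h
  refine ⟨K, fun j => ⟨h0 j, ?_⟩⟩
  have h4 := hK0 (K + j) (by omega)
  simp only [badAt, Set.mem_ofPred_eq, Bad, not_and, not_not] at h4
  exact h4 (h0 j)

theorem ae_ray (hβ : ∀ n, 6 ≤ β n) (hsum : ∀ N, ∑ j ∈ Finset.range N, aa β j ≤ 1 / 2) (n : ℕ) :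
    ∀ᵐ u ∂P, ∃ y ∈ Lv β n, u ∈ raySet (ZZ β M) y := by
  filter_upwards [ae_up' β M hβ hsum] with u hu
  obtain ⟨K, hK⟩ := hu
  set w := fun k => walk (ZZ β M) [] u k with hw
  have hlen : ∀ j, j ≤ (w (K + j)).length := by
    intro j
    induction j with
    | zero => exact Nat.zero_le _
    | succ j ih =>
      obtain ⟨i, hi⟩ := (hK j).2
      have h5 : K + (j + 1) = K + j + 1 := by omega
      simp only [hw] at ih ⊢
      rw [h5, hi, List.length_cons]; omega
  have hsuf : ∀ j, w (K + n) <:+ w (K + n + j) := by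
    intro j
    induction j with
    | zero => exact List.suffix_rfl
    | succ j ih =>
      obtain ⟨i, hi⟩ := (hK (n + j)).2
      have h5 : K + n + (j + 1) = K + (n + j) + 1 := by omega
      have h6 : K + n + j = K + (n + j) := by omega
      simp only [hw] at ih ⊢
      rw [h5, hi]
      rw [h6] at ih
      exact ih.trans (List.suffix_cons _ _)
  set y := (w (K + n)).drop ((w (K + n)).length - n) with hy
  have hys : y <:+ w (K + n) := List.drop_suffix _ _
  have hyl : y.length = n := by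
    rw [hy, List.length_drop]
    have := hlen n
    omega
  have hyt : InTree (ZZ β M) y :=
    inTree_suffix _ hys (inTree_walk _ (ZZ_nil_pos β M) (x := []) trivial u (K + n))
  have hy0 : 0 ∉ y := fun h => (hK n).1 (hys.subset h)
  refine ⟨y, ?_, K + n, ?_⟩
  · have := mem_Lv_of β M hy0 hyt
    rwa [hyl] at this
  · intro k hk
    obtain ⟨j, rfl⟩ : ∃ j, k = K + n + j := ⟨k - (K + n), by omega⟩
    exact hys.trans (hsuf j)

/-! ### Laws at the vertices -/

/-- The first particle at the vertex exists and visits `A`. -/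
def HitA (Z : Env) (A : Set (List ℕ)) (z : List ℕ) : Set Rd :=
  {r | 0 < r.1 ∧ r.2 0 ∈ hitSet Z A z}

lemma meas_HitA (Z : Env) (A : Set (List ℕ)) (z : List ℕ) : MeasurableSet (HitA Z A z) := by
  have h1 : MeasurableSet {r : Rd | 0 < r.1} :=
    measurable_fst (MeasurableSet.of_discrete (s := {n : ℕ | 0 < n}))
  have h2 : MeasurableSet {r : Rd | r.2 0 ∈ hitSet Z A z} :=
    ((measurable_pi_apply 0).comp measurable_snd) (meas_hitSet Z A z)
  exact h1.inter h2

/-- The probability that there is at least one particle. -/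
noncomputable def pp (lam : ℝ≥0) : ℝ := (poissonMeasure lam).real {n | 0 < n}

lemma pp_nonneg (lam : ℝ≥0) : 0 ≤ pp lam := measureReal_nonneg

lemma pp_le_one (lam : ℝ≥0) : pp lam ≤ 1 := measureReal_le_one

lemma law_HitA (lam : ℝ≥0) (Z : Env) (A : Set (List ℕ)) (z : List ℕ) :
    (vertexLaw lam).real (HitA Z A z) = pp lam * hp Z A z := by
  have h1 : HitA Z A z = {n : ℕ | 0 < n} ×ˢ ((fun w : ℕ → ℕ → ℝ => w 0) ⁻¹' (hitSet Z A z)) := by
    ext r; rfl
  have h2 : (Measure.infinitePi fun _ : ℕ => (Measure.infinitePi fun _ : ℕ => unif))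
      ((fun w : ℕ → ℕ → ℝ => w 0) ⁻¹' (hitSet Z A z)) = P (hitSet Z A z) := by
    exact (measurePreserving_eval_infinitePi
      (fun _ : ℕ => (Measure.infinitePi fun _ : ℕ => unif)) 0).measure_preimage
      (meas_hitSet Z A z).nullMeasurableSet
  unfold pp hp Measure.real
  rw [h1, vertexLaw, Measure.prod_prod, h2, ENNReal.toReal_mul]

lemma root_law (lam : ℝ≥0) :
    MeasurePreserving (fun ω : Conf => (ω []).2 0) (FM lam) P := by
  have h1 := measurePreserving_eval_infinitePi (fun _ : List ℕ => vertexLaw lam) []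
  have h2 : MeasurePreserving (Prod.snd : Rd → _) (vertexLaw lam)
      (Measure.infinitePi fun _ : ℕ => Measure.infinitePi fun _ : ℕ => unif) := by
    unfold vertexLaw
    exact measurePreserving_snd
  have h3 := measurePreserving_eval_infinitePi
    (fun _ : ℕ => (Measure.infinitePi fun _ : ℕ => unif)) 0
  exact h3.comp (h2.comp h1)

/-- Upper bound for the probability that no event of a finite family occurs. -/
lemma FM_none (lam : ℝ≥0) (F : Finset (List ℕ)) (B : List ℕ → Set Rd)
    (hB : ∀ z, MeasurableSet (B z)) {r : ℝ} (hr1 : r ≤ 1)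
    (hr : ∀ z ∈ F, r ≤ (vertexLaw lam).real (B z)) :
    FM lam {ω | ∀ z ∈ F, ω z ∉ B z} ≤ ENNReal.ofReal ((1 - r) ^ F.card) := by
  have h1 : {ω : Conf | ∀ z ∈ F, ω z ∉ B z} = Set.pi (F : Set (List ℕ)) (fun z => (B z)ᶜ) := by
    ext ω; simp [Set.mem_pi]
  rw [h1, FM, Measure.infinitePi_pi _ (fun z _ => (hB z).compl)]
  calc ∏ z ∈ F, vertexLaw lam (B z)ᶜ ≤ ∏ z ∈ F, ENNReal.ofReal (1 - r) := by
        refine Finset.prod_le_prod' (fun z hz => ?_)
        have h2 := probReal_compl_eq_one_sub (μ := vertexLaw lam) (hB z)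
        rw [← ofReal_measureReal, h2]
        exact ENNReal.ofReal_le_ofReal (by have := hr z hz; linarith)
    _ = ENNReal.ofReal ((1 - r) ^ F.card) := by
        rw [Finset.prod_const, ENNReal.ofReal_pow (by linarith)]

/-! ### The events -/

open Classical in
/-- The leaves of the traps above level `n`. -/
noncomputable def Leaves (n : ℕ) : Finset (List ℕ) :=
  (Lv β n).biUnion fun l => (Finset.range (M n)).image fun m => m :: 0 :: l

lemma mem_Leaves {n : ℕ} {z : List ℕ} :
    z ∈ Leaves β M n ↔ ∃ l ∈ Lv β n, ∃ m < M n, m :: 0 :: l = z := by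
  classical
  simp [Leaves]

open Classical in
/-- The good leaves: the first particle exists and visits the root. -/
noncomputable def Aset (n : ℕ) (ω : Conf) : Finset (List ℕ) :=
  (Leaves β M n).filter fun z => ω z ∈ HitA (ZZ β M) {[]} z

/-- An active particle from a leaf above level `n` visits the root. -/
def EE (n : ℕ) : Set Conf :=
  {ω | ∃ z ∈ Leaves β M n, Active (ZZ β M) ω z ∧ 0 < cnt z (ω z) ∧
    ∃ k, walk (ZZ β M) z ((ω z).2 0) k = []}

/-- Some trap has no good leaf. -/
def HH (n : ℕ) : Set Conf :=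
  {ω | ∃ l ∈ Lv β n, ∀ m < M n, ω (m :: 0 :: l) ∉ HitA (ZZ β M) {[]} (m :: 0 :: l)}

/-- The bad event for the particles along the ray. -/
def QQ (n : ℕ) : Set Conf :=
  {ω | Full β M n (Aset β M n ω : Set (List ℕ)) ∧ ∃ y ∈ Lv β n,
    (ω []).2 0 ∈ raySet (ZZ β M) y ∧ ∀ i < n, ω (y.drop i) ∉
      HitA (ZZ β M) (Aset β M n ω : Set (List ℕ)) (y.drop i)}

lemma cover (n : ℕ) : (EE β M n)ᶜ ⊆ HH β M n ∪
    {ω | ¬ ∃ y ∈ Lv β n, (ω []).2 0 ∈ raySet (ZZ β M) y} ∪ QQ β M n := by
  classical
  intro ω hω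
  by_cases h1 : ω ∈ HH β M n
  · exact Or.inl (Or.inl h1)
  by_cases h2 : ∃ y ∈ Lv β n, (ω []).2 0 ∈ raySet (ZZ β M) y
  swap
  · exact Or.inl (Or.inr h2)
  refine Or.inr ⟨?_, ?_⟩
  · intro l hl
    simp only [HH, Set.mem_ofPred_eq] at h1
    push Not at h1
    obtain ⟨m, hm, hg⟩ := h1 l hl
    refine ⟨m, hm, ?_⟩
    simp only [Aset, Finset.coe_filter, Set.mem_ofPred_eq]
    exact ⟨(mem_Leaves β M).2 ⟨l, hl, m, hm, rfl⟩, hg⟩
  · obtain ⟨y, hy, hyr⟩ := h2
    refine ⟨y, hy, hyr, ?_⟩
    intro i hi hmem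
    apply hω
    obtain ⟨hpos, k, hk⟩ := hmem
    have hk' := Finset.mem_coe.1 hk
    unfold Aset at hk'
    rw [Finset.mem_filter] at hk'
    obtain ⟨hkL, hkpos, k2, hk2⟩ := hk'
    obtain ⟨k1, hk1⟩ := raySet_visits (ZZ β M) (ZZ_nil_pos β M) hyr (List.drop_suffix i y)
    have hact : Active (ZZ β M) ω (y.drop i) :=
      Active.wake (x := []) 0 k1 Active.root (by simp [cnt]) hk1
    have hne : y.drop i ≠ [] := by
      intro h
      have := congrArg List.length h
      rw [List.length_drop, Lv_len β hy] at this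
      simp at this
      omega
    have hcnt : 0 < cnt (y.drop i) (ω (y.drop i)) := by
      rcases hz : y.drop i with _ | ⟨a, b⟩
      · exact absurd hz hne
      · rw [hz] at hpos
        exact hpos
    have hact2 := Active.wake 0 k hact hcnt rfl
    obtain ⟨l, hl, m, hm, hml⟩ := (mem_Leaves β M).1 hkL
    refine ⟨_, hkL, hact2, ?_, k2, hk2⟩
    rw [← hml]
    rw [← hml] at hkpos
    exact hkpos

lemma measurable_eval (z : List ℕ) (B : Set Rd) (hB : MeasurableSet B) :
    MeasurableSet {ω : Conf | ω z ∈ B} := (measurable_pi_apply z) hB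

lemma meas_QQ (n : ℕ) : MeasurableSet (QQ β M n) := by
  classical
  have h1 : QQ β M n = ⋃ A0 ∈ (Leaves β M n).powerset, ({ω | Aset β M n ω = A0} ∩
      {ω | Full β M n (A0 : Set (List ℕ)) ∧ ∃ y ∈ Lv β n,
        (ω []).2 0 ∈ raySet (ZZ β M) y ∧ ∀ i < n, ω (y.drop i) ∉
        HitA (ZZ β M) (A0 : Set (List ℕ)) (y.drop i)}) := by
    ext ω
    simp only [QQ, Set.mem_ofPred_eq, Set.mem_iUnion, Set.mem_inter_iff, exists_prop]
    constructor
    · intro h
      refine ⟨Aset β M n ω, ?_, rfl, h⟩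
      rw [Finset.mem_powerset]
      exact Finset.filter_subset _ _
    · rintro ⟨A0, _, h2, h3⟩
      rw [h2]
      exact h3
  rw [h1]
  refine Finset.measurableSet_biUnion _ (fun A0 hA0 => MeasurableSet.inter ?_ ?_)
  · have h2 : {ω : Conf | Aset β M n ω = A0} = ⋂ z ∈ Leaves β M n,
        (if z ∈ A0 then {ω : Conf | ω z ∈ HitA (ZZ β M) {[]} z}
          else {ω : Conf | ω z ∈ HitA (ZZ β M) {[]} z}ᶜ) := by
      ext ω
      simp only [Set.mem_ofPred_eq, Set.mem_iInter]
      constructor
      · intro h z hz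
        have h3 : z ∈ A0 ↔ ω z ∈ HitA (ZZ β M) {[]} z := by
          rw [← h, Aset, Finset.mem_filter]
          exact ⟨fun h => h.2, fun h => ⟨hz, h⟩⟩
        by_cases h4 : z ∈ A0
        · rw [if_pos h4]; exact h3.1 h4
        · rw [if_neg h4]; exact fun h5 => h4 (h3.2 h5)
      · intro h
        ext z
        rw [Aset, Finset.mem_filter]
        constructor
        · rintro ⟨hz, hg⟩
          have h5 := h z hz
          by_contra h4
          rw [if_neg h4] at h5
          exact h5 hg
        · intro hz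
          have hzL : z ∈ Leaves β M n := (Finset.mem_powerset.1 hA0) hz
          have h5 := h z hzL
          rw [if_pos hz] at h5
          exact ⟨hzL, h5⟩
    rw [h2]
    refine Finset.measurableSet_biInter _ (fun z _ => ?_)
    split_ifs
    · exact measurable_eval z _ (meas_HitA _ _ _)
    · exact (measurable_eval z _ (meas_HitA _ _ _)).compl
  · have h2 : {ω : Conf | Full β M n (A0 : Set (List ℕ)) ∧ ∃ y ∈ Lv β n,
        (ω []).2 0 ∈ raySet (ZZ β M) y ∧ ∀ i < n, ω (y.drop i) ∉
        HitA (ZZ β M) (A0 : Set (List ℕ)) (y.drop i)} = {_ω : Conf | Full β M n (A0 : Set (List ℕ))} ∩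
        ⋃ y ∈ Lv β n, ({ω : Conf | (ω []).2 0 ∈ raySet (ZZ β M) y} ∩
          ⋂ i ∈ Finset.range n, {ω : Conf | ω (y.drop i) ∈
            HitA (ZZ β M) (A0 : Set (List ℕ)) (y.drop i)}ᶜ) := by
      ext ω
      simp only [Set.mem_ofPred_eq, Set.mem_inter_iff, Set.mem_iUnion, Set.mem_iInter,
        Finset.mem_range, Set.mem_compl_iff, exists_prop]
    rw [h2]
    refine MeasurableSet.inter (MeasurableSet.const _) (Finset.measurableSet_biUnion _
      (fun y _ => MeasurableSet.inter ?_ (Finset.measurableSet_biInter _ (fun i _ => ?_))))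
    · have h3 : Measurable (fun ω : Conf => (ω []).2 0) :=
        (measurable_pi_apply 0).comp (measurable_snd.comp (measurable_pi_apply []))
      exact h3 (meas_raySet _ y)
    · exact (measurable_eval _ _ (meas_HitA _ _ _)).compl

lemma FM_QQ (lam : ℝ≥0) (hsum : ∀ N, ∑ j ∈ Finset.range N, aa β j ≤ 1 / 2) (n : ℕ) :
    FM lam (QQ β M n) ≤ ENNReal.ofReal ((1 - pp lam / (4 * ((β n : ℝ) + 2))) ^ n) := by
  classical
  set r : ℝ := pp lam / (4 * ((β n : ℝ) + 2)) with hr
  have hr1 : r ≤ 1 := by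
    rw [hr, div_le_one (by positivity)]
    have := pp_le_one lam
    have h2 : (0 : ℝ) ≤ β n := by positivity
    linarith
  set S : Set (List ℕ) := {z | z = [] ∨ z ∈ Leaves β M n} with hS
  have hres := resample (vertexLaw lam) S
  have hg : Measurable (fun q : (List ℕ → Rd) × (List ℕ → Rd) =>
      fun i => if i ∈ S then q.1 i else q.2 i) := by
    refine measurable_pi_lambda _ (fun i => ?_)
    by_cases h : i ∈ S
    · simp only [if_pos h]; exact (measurable_pi_apply i).comp measurable_fst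
    · simp only [if_neg h]; exact (measurable_pi_apply i).comp measurable_snd
  have h1 : FM lam (QQ β M n) = ((FM lam).prod (FM lam))
      ((fun q : (List ℕ → Rd) × (List ℕ → Rd) => fun i => if i ∈ S then q.1 i else q.2 i) ⁻¹'
        (QQ β M n)) := by
    rw [← Measure.map_apply hg (meas_QQ β M n)]
    unfold FM
    rw [hres]
  rw [h1, Measure.prod_apply (hg (meas_QQ β M n))]
  have h2 : ∀ ω1 : Conf, FM lam (Prod.mk ω1 ⁻¹' ((fun q : (List ℕ → Rd) × (List ℕ → Rd) =>
      fun i => if i ∈ S then q.1 i else q.2 i) ⁻¹' (QQ β M n)))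
      ≤ ENNReal.ofReal ((1 - r) ^ n) := by
    intro ω1
    have hA : ∀ ω2 : Conf, Aset β M n (fun i => if i ∈ S then ω1 i else ω2 i)
        = Aset β M n ω1 := by
      intro ω2
      unfold Aset
      refine Finset.filter_congr (fun z hz => ?_)
      change (if z ∈ S then ω1 z else ω2 z) ∈ _ ↔ _
      rw [if_pos (show z ∈ S from Or.inr hz)]
    by_cases hex : Full β M n (Aset β M n ω1 : Set (List ℕ)) ∧
        ∃ y ∈ Lv β n, (ω1 []).2 0 ∈ raySet (ZZ β M) y
    · obtain ⟨hfull, y, hy, hyr⟩ := hex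
      have hyl := Lv_len β hy
      have hy0 := Lv_NT β hy
      have hyt := Lv_inTree β M hy
      set F : Finset (List ℕ) := (Finset.range n).image (fun i => y.drop i) with hF
      have hFcard : F.card = n := by
        rw [hF, Finset.card_image_of_injOn, Finset.card_range]
        intro a ha b hb hab
        have h3 := congrArg List.length hab
        simp only [List.length_drop, hyl] at h3
        have ha' : a < n := by simpa using ha
        have hb' : b < n := by simpa using hb
        omega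
      have hdrop : ∀ i < n, y.drop i ∈ Lv β (n - i) := by
        intro i hi
        have h3 : 0 ∉ y.drop i := fun h => hy0 ((List.drop_suffix i y).subset h)
        have h4 := mem_Lv_of β M h3 (inTree_suffix _ (List.drop_suffix i y) hyt)
        rwa [List.length_drop, hyl] at h4
      have hsub : (Prod.mk ω1 ⁻¹' ((fun q : (List ℕ → Rd) × (List ℕ → Rd) =>
          fun i => if i ∈ S then q.1 i else q.2 i) ⁻¹' (QQ β M n))) ⊆
          {ω2 : Conf | ∀ z ∈ F, ω2 z ∉ HitA (ZZ β M) (Aset β M n ω1 : Set (List ℕ)) z} := by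
        intro ω2 hω2
        simp only [Set.mem_preimage] at hω2
        obtain ⟨_, y', hy', hyr', hno⟩ := hω2
        have hroot : (if ([] : List ℕ) ∈ S then ω1 [] else ω2 []) = ω1 [] :=
          if_pos (Or.inl rfl)
        have hyr' : (if ([] : List ℕ) ∈ S then ω1 [] else ω2 []).2 0 ∈ raySet (ZZ β M) y' := hyr'
        rw [hroot] at hyr'
        have hyy : y' = y := raySet_unique (ZZ β M) (by rw [Lv_len β hy', hyl]) hyr' hyr
        subst hyy
        intro z hz
        obtain ⟨i, hi, rfl⟩ := Finset.mem_image.1 hz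
        have hi' : i < n := Finset.mem_range.1 hi
        have h5 := hno i hi'
        rw [hA ω2] at h5
        change (if y'.drop i ∈ S then ω1 (y'.drop i) else ω2 (y'.drop i)) ∉ _ at h5
        have hzS : y'.drop i ∉ S := by
          rintro (h | h)
          · have := Lv_len β (hdrop i hi')
            rw [h] at this
            simp at this
            omega
          · obtain ⟨l, _, m, _, hml⟩ := (mem_Leaves β M).1 h
            apply Lv_NT β (hdrop i hi')
            rw [← hml]
            simp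
        rw [if_neg hzS] at h5
        exact h5
      refine (measure_mono hsub).trans ?_
      have h6 := FM_none lam F (fun z => HitA (ZZ β M) (Aset β M n ω1 : Set (List ℕ)) z)
        (fun z => meas_HitA _ _ _) hr1 (fun z hz => ?_)
      · rw [hFcard] at h6
        exact h6
      · obtain ⟨i, hi, rfl⟩ := Finset.mem_image.1 hz
        have hi' : i < n := Finset.mem_range.1 hi
        rw [law_HitA]
        have h7 := hit_bound β M hfull hsum (m := n - i) (by omega) (hdrop i hi')
        have h8 := pp_nonneg lam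
        calc r = pp lam * (1 / (4 * ((β n : ℝ) + 2))) := by rw [hr]; ring
          _ ≤ _ := by gcongr
    · have hempty : (Prod.mk ω1 ⁻¹' ((fun q : (List ℕ → Rd) × (List ℕ → Rd) =>
          fun i => if i ∈ S then q.1 i else q.2 i) ⁻¹' (QQ β M n))) = ∅ := by
        ext ω2
        simp only [Set.mem_preimage, Set.mem_empty_iff_false, iff_false]
        rintro ⟨hfull, y, hy, hyr, _⟩
        apply hex
        rw [hA ω2] at hfull
        have hroot : (if ([] : List ℕ) ∈ S then ω1 [] else ω2 []) = ω1 [] :=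
          if_pos (Or.inl rfl)
        have hyr : (if ([] : List ℕ) ∈ S then ω1 [] else ω2 []).2 0 ∈ raySet (ZZ β M) y := hyr
        rw [hroot] at hyr
        exact ⟨hfull, y, hy, hyr⟩
      rw [hempty, measure_empty]
      exact bot_le
  calc ∫⁻ ω1, FM lam (Prod.mk ω1 ⁻¹' ((fun q : (List ℕ → Rd) × (List ℕ → Rd) =>
        fun i => if i ∈ S then q.1 i else q.2 i) ⁻¹' (QQ β M n))) ∂(FM lam)
      ≤ ∫⁻ _ω1, ENNReal.ofReal ((1 - r) ^ n) ∂(FM lam) := lintegral_mono h2
    _ = ENNReal.ofReal ((1 - r) ^ n) := by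
        rw [lintegral_const, measure_univ, mul_one]

lemma FM_HH (lam : ℝ≥0) (n : ℕ) :
    FM lam (HH β M n) ≤ ENNReal.ofReal ((Dg β n : ℝ) * (1 - pp lam / (Dg β n : ℝ)) ^ (M n)) := by
  classical
  set r : ℝ := pp lam / (Dg β n : ℝ) with hr
  have hD : (1 : ℝ) ≤ Dg β n := by exact_mod_cast Dg_pos β n
  have hr1 : r ≤ 1 := by
    rw [hr, div_le_one (by linarith)]
    have := pp_le_one lam
    linarith
  have h1 : HH β M n ⊆ ⋃ l ∈ Lv β n, {ω : Conf | ∀ z ∈ (Finset.range (M n)).image
      (fun m => m :: 0 :: l), ω z ∉ HitA (ZZ β M) {[]} z} := by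
    rintro ω ⟨l, hl, h⟩
    simp only [Set.mem_iUnion]
    refine ⟨l, hl, ?_⟩
    intro z hz
    obtain ⟨m, hm, rfl⟩ := Finset.mem_image.1 hz
    exact h m (Finset.mem_range.1 hm)
  refine (measure_mono h1).trans ((measure_biUnion_finset_le _ _).trans ?_)
  have h2 : ∀ l ∈ Lv β n, FM lam {ω : Conf | ∀ z ∈ (Finset.range (M n)).image
      (fun m => m :: 0 :: l), ω z ∉ HitA (ZZ β M) {[]} z} ≤ ENNReal.ofReal ((1 - r) ^ (M n)) := by
    intro l hl
    have hll := Lv_len β hl
    have hl0 := Lv_NT β hl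
    have h3 := FM_none lam ((Finset.range (M n)).image (fun m => m :: 0 :: l))
      (fun z => HitA (ZZ β M) {[]} z) (fun z => meas_HitA _ _ _) hr1 (fun z hz => ?_)
    · rw [Finset.card_image_of_injective, Finset.card_range] at h3
      · exact h3
      · intro a b hab
        simpa using hab
    · obtain ⟨m, hm, rfl⟩ := Finset.mem_image.1 hz
      rw [law_HitA]
      have h4 := hit_root_leaf β M hl0 m
      rw [hll] at h4
      have h5 := pp_nonneg lam
      rw [hr, div_le_iff₀ (by linarith)]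
      calc pp lam = pp lam * 1 := by ring
        _ ≤ pp lam * ((Dg β n : ℝ) * hp (ZZ β M) {[]} (m :: 0 :: l)) := by gcongr
        _ = _ := by ring
  refine (Finset.sum_le_sum h2).trans ?_
  rw [Finset.sum_const, nsmul_eq_mul, ENNReal.ofReal_mul (by positivity), ENNReal.ofReal_natCast]
  gcongr
  exact card_Lv' β n

/-- The probability bound for the complement of `EE`. -/
theorem FM_EE (lam : ℝ≥0) (hβ : ∀ n, 6 ≤ β n)
    (hsum : ∀ N, ∑ j ∈ Finset.range N, aa β j ≤ 1 / 2) (n : ℕ) :
    FM lam (EE β M n)ᶜ ≤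
      ENNReal.ofReal ((Dg β n : ℝ) * (1 - pp lam / (Dg β n : ℝ)) ^ (M n)) +
      ENNReal.ofReal ((1 - pp lam / (4 * ((β n : ℝ) + 2))) ^ n) := by
  have h0 : FM lam {ω | ¬ ∃ y ∈ Lv β n, (ω []).2 0 ∈ raySet (ZZ β M) y} = 0 := by
    have h1 := (root_law lam).quasiMeasurePreserving.ae (ae_ray β M hβ hsum n)
    exact h1
  calc FM lam (EE β M n)ᶜ ≤ FM lam (HH β M n ∪
        {ω | ¬ ∃ y ∈ Lv β n, (ω []).2 0 ∈ raySet (ZZ β M) y} ∪ QQ β M n) :=
        measure_mono (cover β M n)
    _ ≤ FM lam (HH β M n ∪ {ω | ¬ ∃ y ∈ Lv β n, (ω []).2 0 ∈ raySet (ZZ β M) y}) +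
        FM lam (QQ β M n) := measure_union_le _ _
    _ ≤ (FM lam (HH β M n) + FM lam {ω | ¬ ∃ y ∈ Lv β n, (ω []).2 0 ∈ raySet (ZZ β M) y}) +
        FM lam (QQ β M n) := by gcongr; exact measure_union_le _ _
    _ ≤ _ := by
        rw [h0, add_zero]
        gcongr
        · exact FM_HH β M lam n
        · exact FM_QQ β M lam hsum n

/-- If the complements of `EE n` have small probability along a sequence, the model is not
transient. -/
theorem not_transient (lam : ℝ≥0) (h : ∀ N, ∃ n, N ≤ n ∧ FM lam (EE β M n)ᶜ ≤ 1 / 2) :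
    ¬ Transient (ZZ β M) lam := by
  intro hT
  set Fs : ℕ → Set Conf := fun N => ⋂ (n : ℕ) (_ : N ≤ n), (EE β M n)ᶜ with hFs
  have hmono : Monotone Fs := by
    intro a b hab ω hω
    simp only [hFs, Set.mem_iInter] at hω ⊢
    exact fun n hn => hω n (hab.trans hn)
  have hfull : FM lam (⋃ N, Fs N) = 1 := by
    have h1 : ∀ᵐ ω ∂FM lam, ω ∈ ⋃ N, Fs N := by
      filter_upwards [hT] with ω hω
      by_contra hno
      simp only [hFs, Set.mem_iUnion, Set.mem_iInter, not_exists, not_forall,
        Set.mem_compl_iff, not_not] at hno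
      -- the map from particles to the lengths of their vertices has unbounded range
      have hlen := (hω.image (fun q : List ℕ × ℕ => q.1.length)).bddAbove
      obtain ⟨L, hL⟩ := hlen
      obtain ⟨n, hn, z, hz, hact, hpos, k, hk⟩ := hno L
      have h2 : (z, 0).1.length ∈ (fun q : List ℕ × ℕ => q.1.length) ''
          {q : List ℕ × ℕ | Active (ZZ β M) ω q.1 ∧ q.2 < cnt q.1 (ω q.1) ∧
            ∃ k, walk (ZZ β M) q.1 ((ω q.1).2 q.2) k = []} :=
        ⟨(z, 0), ⟨hact, hpos, k, hk⟩, rfl⟩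
      have h3 := hL h2
      obtain ⟨l, hl, m, hm, hml⟩ := (mem_Leaves β M).1 hz
      simp only at h3
      rw [← hml, List.length_cons, List.length_cons, Lv_len β hl] at h3
      omega
    rw [← prob_compl_eq_zero_iff₀]
    · exact measure_eq_zero_iff_ae_notMem.2 (by filter_upwards [h1] with ω hω using fun h => h hω)
    · have h5 : (⋃ N, Fs N) =ᵐ[FM lam] (Set.univ : Set Conf) := by
        filter_upwards [h1] with ω hω
        exact propext ⟨fun _ => trivial, fun _ => hω⟩
      exact NullMeasurableSet.congr MeasurableSet.univ.nullMeasurableSet h5.symm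
  rw [hmono.measure_iUnion] at hfull
  have h1 : (1 / 2 : ℝ≥0∞) < ⨆ N, FM lam (Fs N) := by
    rw [hfull]
    exact ENNReal.half_lt_self one_ne_zero ENNReal.one_ne_top
  obtain ⟨N, hN⟩ := lt_iSup_iff.1 h1
  obtain ⟨n, hn, hle⟩ := h N
  have h2 : Fs N ⊆ (EE β M n)ᶜ := by
    intro ω hω
    simp only [hFs, Set.mem_iInter] at hω
    exact hω n hn
  have h3 := (measure_mono (μ := FM lam) h2).trans hle
  exact absurd hN (not_lt.2 h3)

end Pool.Agent.R766.FT
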