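import Pool.Agent.R766.FT.Tree

/-!
The walk makes finitely many bad steps, and its speed is one.
-/

set_option autoImplicit false

namespace Pool.Agent.R766.FT

open MeasureTheory ProbabilityTheory Filter FrogGW
open scoped ENNReal NNReal Topology

lemma lint_cons_real (Z : Env) (i : ℕ) (v : List ℕ) (g : List ℕ → ℝ) (hg : ∀ y, 0 ≤ g y) :
    ∫⁻ s, ENNReal.ofReal (g (step Z (i :: v) s)) ∂unif = ENNReal.ofReal
      (((Z (i :: v) : ℝ) + 1)⁻¹ * (g v + ∑ j ∈ Finset.range (Z (i :: v)), g (j :: i :: v))) := by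
  rw [step_cons Z i v (fun y => ENNReal.ofReal (g y)),
    ← ENNReal.ofReal_sum_of_nonneg (fun j _ => hg _),
    ← ENNReal.ofReal_add (hg _) (Finset.sum_nonneg (fun j _ => hg _))]
  have h2 : ((Z (i :: v) : ℝ≥0∞) + 1) = ENNReal.ofReal ((Z (i :: v) : ℝ) + 1) := by
    rw [ENNReal.ofReal_add (by positivity) zero_le_one, ENNReal.ofReal_natCast, ENNReal.ofReal_one]
  have h3 : (0 : ℝ) < (Z (i :: v) : ℝ) + 1 := by positivity
  rw [h2, ← ENNReal.ofReal_inv_of_pos h3, ← ENNReal.ofReal_mul (by positivity)]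

lemma lint_nil_real (Z : Env) (hZ : 1 ≤ Z []) (g : List ℕ → ℝ) (hg : ∀ y, 0 ≤ g y) :
    ∫⁻ s, ENNReal.ofReal (g (step Z [] s)) ∂unif = ENNReal.ofReal
      ((Z [] : ℝ)⁻¹ * ∑ j ∈ Finset.range (Z []), g [j]) := by
  rw [step_nil Z hZ (fun y => ENNReal.ofReal (g y)),
    ← ENNReal.ofReal_sum_of_nonneg (fun j _ => hg _)]
  have h3 : (0 : ℝ) < (Z [] : ℝ) := by
    have : 0 < Z [] := hZ
    exact_mod_cast this
  rw [← ENNReal.ofReal_natCast, ← ENNReal.ofReal_inv_of_pos h3,
    ← ENNReal.ofReal_mul (by positivity)]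

/-- The possible values of a step. -/
lemma step_cases (Z : Env) (hZ : 1 ≤ Z []) (x : List ℕ) (s : ℝ) :
    (∃ j < Z x, step Z x s = j :: x) ∨ (∃ i, x = i :: step Z x s) := by
  rcases x with _ | ⟨i, v⟩
  · left
    refine ⟨min ⌊s * (Z [] : ℝ)⌋₊ (Z [] - 1), ?_, rfl⟩
    exact lt_of_le_of_lt (min_le_right _ _) (by omega)
  · by_cases h : ⌊s * ((Z (i :: v) : ℝ) + 1)⌋₊ < Z (i :: v)
    · left
      refine ⟨_, h, ?_⟩
      rw [step, if_pos h]
    · right
      refine ⟨i, ?_⟩
      rw [step, if_neg h]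

lemma inTree_step (Z : Env) (hZ : 1 ≤ Z []) {x : List ℕ} (hx : InTree Z x) (s : ℝ) :
    InTree Z (step Z x s) := by
  rcases step_cases Z hZ x s with ⟨j, hj, h⟩ | ⟨i, h⟩
  · rw [h]; exact ⟨hx, hj⟩
  · rw [h] at hx; exact hx.1

lemma inTree_walk (Z : Env) (hZ : 1 ≤ Z []) {x : List ℕ} (hx : InTree Z x) (u : ℕ → ℝ) (k : ℕ) :
    InTree Z (walk Z x u k) := by
  induction k with
  | zero => exact hx
  | succ k ih => exact inTree_step Z hZ ih _

/-- The number of letters above the last zero. -/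
def nl : List ℕ → ℕ
  | [] => 0
  | i :: l => if 0 ∈ i :: l then nl l else l.length + 1

lemma nl_NT {x : List ℕ} (hx : 0 ∉ x) : nl x = x.length := by
  rcases x with _ | ⟨i, l⟩
  · rfl
  · rw [nl, if_neg hx, List.length_cons]

lemma nl_cons {x : List ℕ} (j : ℕ) (hx : 0 ∈ x) : nl (j :: x) = nl x := by
  rw [nl, if_pos (List.mem_cons_of_mem _ hx)]

lemma nl_zero (x : List ℕ) : nl (0 :: x) = nl x := by
  rw [nl, if_pos List.mem_cons_self]

/-- A bad step. -/
def Bad (x y : List ℕ) : Prop := 0 ∉ x ∧ ¬ ∃ j, y = (j + 1) :: x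

variable (β M : ℕ → ℕ)

/-- The potential. -/
noncomputable def ph (n : ℕ) : ℝ := 1 - 2 * ∑ j ∈ Finset.range n, aa β j

lemma ph_succ (n : ℕ) : ph β (n + 1) = ph β n - 2 * aa β n := by
  unfold ph; rw [Finset.sum_range_succ]; ring

lemma ph_nonneg (hsum : ∀ N, ∑ j ∈ Finset.range N, aa β j ≤ 1 / 2) (n : ℕ) : 0 ≤ ph β n := by
  unfold ph; have := hsum n; linarith

lemma ph_le_one (n : ℕ) : ph β n ≤ 1 := by
  unfold ph
  have : 0 ≤ ∑ j ∈ Finset.range n, aa β j := Finset.sum_nonneg (fun j _ => aa_nonneg β j)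
  linarith

open Classical in
/-- The one-step cost plus potential. -/
noncomputable def gg (x y : List ℕ) : ℝ := (if Bad x y then 1 else 0) + ph β (nl y)

lemma gg_nonneg (hsum : ∀ N, ∑ j ∈ Finset.range N, aa β j ≤ 1 / 2) (x y : List ℕ) :
    0 ≤ gg β x y := by
  unfold gg
  have := ph_nonneg β hsum (nl y)
  split_ifs <;> linarith

lemma four_ratio {b : ℝ} (hb : 6 ≤ b) : 3 ≤ 2 * b * (2 / (b + 2)) := by
  have h0 : (0 : ℝ) < b + 2 := by linarith
  rw [mul_div_assoc', le_div_iff₀ h0]
  nlinarith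

lemma one_step (hβ : ∀ n, 6 ≤ β n) (hsum : ∀ N, ∑ j ∈ Finset.range N, aa β j ≤ 1 / 2)
    (x : List ℕ) :
    ∫⁻ s, ENNReal.ofReal (gg β x (step (ZZ β M) x s)) ∂unif ≤ ENNReal.ofReal (ph β (nl x)) := by
  classical
  by_cases h0 : 0 ∈ x
  · -- constant potential
    have h1 : ∀ s, gg β x (step (ZZ β M) x s) = ph β (nl x) := by
      intro s
      unfold gg Bad
      rw [if_neg (by tauto), zero_add]
      congr 1
      rcases step_cases (ZZ β M) (ZZ_nil_pos β M) x s with ⟨j, _, h⟩ | ⟨i, h⟩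
      · rw [h, nl_cons j h0]
      · by_cases h2 : 0 ∈ step (ZZ β M) x s
        · conv_rhs => rw [h, nl_cons i h2]
        · have hi : i = 0 := by
            rw [h] at h0
            rcases List.mem_cons.1 h0 with h3 | h3
            · exact h3.symm
            · exact absurd h3 h2
          conv_rhs => rw [h, hi, nl_zero]
    simp only [h1, lintegral_const]
    rw [measure_univ, mul_one]
  · rcases x with _ | ⟨i, v⟩
    · rw [lint_nil_real _ (ZZ_nil_pos β M) _ (gg_nonneg β hsum [])]
      refine ENNReal.ofReal_le_ofReal ?_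
      rw [ZZ_NT β M h0]
      simp only [List.length_nil]
      rw [Finset.sum_range_succ']
      have hg0 : gg β [] [0] = 1 + ph β 0 := by
        unfold gg
        rw [if_pos ⟨by simp, by simp⟩]
        rfl
      have hg1 : ∀ j, gg β [] [j + 1] = ph β 1 := by
        intro j
        unfold gg Bad
        rw [if_neg (by simp), zero_add, nl_NT (by simp)]
        rfl
      simp only [hg1]
      rw [Finset.sum_const, Finset.card_range, nsmul_eq_mul]
      have hb : (6 : ℝ) ≤ β 0 := by exact_mod_cast hβ 0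
      have h3 := four_ratio hb
      have h4 : ph β 1 = ph β 0 - 2 * aa β 0 := ph_succ β 0
      rw [inv_mul_le_iff₀ (by positivity)]
      push_cast
      rw [hg0, h4]
      unfold aa
      change (β 0 : ℝ) * (ph β 0 - 2 * (2 / ((β 0 : ℝ) + 2))) + (1 + ph β 0)
        ≤ ((β 0 : ℝ) + 1) * ph β 0
      nlinarith
    · have hv : 0 ∉ v := fun h => h0 (List.mem_cons_of_mem _ h)
      rw [lint_cons_real _ _ _ _ (gg_nonneg β hsum (i :: v))]
      refine ENNReal.ofReal_le_ofReal ?_
      rw [ZZ_NT β M h0]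
      simp only [List.length_cons]
      rw [Finset.sum_range_succ']
      have hgv : gg β (i :: v) v = 1 + ph β v.length := by
        have hnb : ¬ ∃ j, v = (j + 1) :: i :: v := by
          rintro ⟨j, hj⟩
          have h8 : v.length = ((j + 1) :: i :: v).length := congrArg List.length hj
          simp only [List.length_cons] at h8
          omega
        unfold gg
        rw [if_pos ⟨h0, hnb⟩, nl_NT hv]
      have hg0 : gg β (i :: v) (0 :: i :: v) = 1 + ph β (v.length + 1) := by
        unfold gg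
        rw [if_pos ⟨h0, by simp⟩, nl_zero, nl_NT h0, List.length_cons]
      have hg1 : ∀ j, gg β (i :: v) ((j + 1) :: i :: v) = ph β (v.length + 1 + 1) := by
        intro j
        unfold gg Bad
        rw [if_neg (by simp), zero_add, nl_NT (by
          intro h
          rcases List.mem_cons.1 h with h | h
          · omega
          · exact h0 h)]
        rfl
      simp only [hg1]
      rw [Finset.sum_const, Finset.card_range, nsmul_eq_mul, hgv, hg0, nl_NT h0,
        List.length_cons]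
      set n := v.length with hn
      have hb : (6 : ℝ) ≤ β (n + 1) := by exact_mod_cast hβ (n + 1)
      have hb2 : (6 : ℝ) ≤ β n := by exact_mod_cast hβ n
      have h3 := four_ratio hb
      have h4 := ph_succ β (n + 1)
      have h5 := ph_succ β n
      have h6 : aa β n ≤ 1 / 2 := by
        unfold aa
        rw [div_le_div_iff₀ (by positivity) (by norm_num)]
        linarith
      rw [inv_mul_le_iff₀ (by positivity)]
      push_cast
      rw [h4]
      have h7 : 3 ≤ 2 * (β (n + 1) : ℝ) * aa β (n + 1) := h3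
      nlinarith

/-- The events of a bad step at time `k`. -/
def badAt (Z : Env) (x : List ℕ) (k : ℕ) : Set (ℕ → ℝ) :=
  {u | Bad (walk Z x u k) (walk Z x u (k + 1))}

lemma meas_badAt (Z : Env) (x : List ℕ) (k : ℕ) : MeasurableSet (badAt Z x k) := by
  have : badAt Z x k = ⋃ (p : List ℕ × List ℕ) (_ : Bad p.1 p.2),
      ({u | walk Z x u k = p.1} ∩ {u | walk Z x u (k + 1) = p.2}) := by
    ext u
    simp only [badAt, Set.mem_ofPred_eq, Set.mem_iUnion, Set.mem_inter_iff, Prod.exists,
      exists_prop]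
    constructor
    · intro h
      exact ⟨_, _, h, rfl, rfl⟩
    · rintro ⟨a, b, h, h1, h2⟩
      rw [h1, h2]; exact h
  rw [this]
  refine MeasurableSet.iUnion (fun p => MeasurableSet.iUnion (fun _ => ?_))
  exact (Pool.Agent.W45.FG.meas_walk Z x k _).inter (Pool.Agent.W45.FG.meas_walk Z x (k + 1) _)

lemma meas_fun_step (Z : Env) (x : List ℕ) (f : List ℕ → ℝ≥0∞) :
    Measurable (fun s => f (step Z x s)) := by
  have h := meas_of_fiber (X := Unit) Z x (fun y _ => f y) (fun y => measurable_const)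
  exact h.comp (measurable_id.prodMk (measurable_const (a := ())))

lemma badAt_succ (Z : Env) (x : List ℕ) (k : ℕ) :
    badAt Z x (k + 1) = {u | sft u ∈ badAt Z (step Z x (u 0)) k} := by
  ext u
  simp only [badAt, Set.mem_ofPred_eq]
  rw [walk_succ', walk_succ']

open Classical in
lemma prob_badAt_zero (Z : Env) (x : List ℕ) :
    P (badAt Z x 0) = ∫⁻ s, (if Bad x (step Z x s) then 1 else 0) ∂unif := by
  have h1 : badAt Z x 0 = {u | sft u ∈ (fun y => if Bad x y then (Set.univ : Set (ℕ → ℝ)) else ∅)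
      (step Z x (u 0))} := by
    ext u
    simp only [badAt, Set.mem_ofPred_eq]
    change Bad x (step Z x (u 0)) ↔ _
    by_cases h : Bad x (step Z x (u 0)) <;> simp [h]
  have h2 := prob_step Z x (fun y => if Bad x y then (Set.univ : Set (ℕ → ℝ)) else ∅)
    (fun y => by by_cases h : Bad x y <;> simp [h])
  rw [h1]
  refine h2.trans (lintegral_congr (fun s => ?_))
  by_cases h : Bad x (step Z x s) <;> simp [h]

lemma sum_bad (hβ : ∀ n, 6 ≤ β n) (hsum : ∀ N, ∑ j ∈ Finset.range N, aa β j ≤ 1 / 2) (n : ℕ) :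
    ∀ x, ∑ k ∈ Finset.range n, P (badAt (ZZ β M) x k) ≤ ENNReal.ofReal (ph β (nl x)) := by
  classical
  induction n with
  | zero => intro x; simp
  | succ n ih =>
    intro x
    rw [Finset.sum_range_succ', prob_badAt_zero]
    have h1 : ∀ k, P (badAt (ZZ β M) x (k + 1)) =
        ∫⁻ s, P (badAt (ZZ β M) (step (ZZ β M) x s) k) ∂unif := by
      intro k
      rw [badAt_succ]
      exact prob_step (ZZ β M) x (fun y => badAt (ZZ β M) y k) (fun y => meas_badAt _ _ _)
    simp only [h1]
    rw [← lintegral_finsetSum _ (fun k _ => meas_fun_step (ZZ β M) x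
      (fun y => P (badAt (ZZ β M) y k))), ← lintegral_add_left
      (Finset.measurable_sum _ (fun k _ => meas_fun_step (ZZ β M) x
      (fun y => P (badAt (ZZ β M) y k))))]
    refine le_trans (lintegral_mono (fun s => ?_)) (one_step β M hβ hsum x)
    unfold gg
    have h2 := ih (step (ZZ β M) x s)
    by_cases h : Bad x (step (ZZ β M) x s)
    · rw [if_pos h, if_pos h, ENNReal.ofReal_add zero_le_one (ph_nonneg β hsum _),
        ENNReal.ofReal_one, add_comm]
      gcongr
    · rw [if_neg h, if_neg h, add_zero, zero_add]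
      exact h2

lemma ae_finite_bad (hβ : ∀ n, 6 ≤ β n) (hsum : ∀ N, ∑ j ∈ Finset.range N, aa β j ≤ 1 / 2)
    (x : List ℕ) : ∀ᵐ u ∂P, ∀ᶠ k in atTop, u ∉ badAt (ZZ β M) x k := by
  refine ae_eventually_notMem ?_
  rw [ENNReal.tsum_eq_iSup_nat]
  refine ne_top_of_le_ne_top ENNReal.ofReal_ne_top
    (iSup_le (fun n => sum_bad β M hβ hsum n x))

/-! ### The walk does not stay in a trap -/

/-- The walk stays in words with a letter `0`. -/
def staySet (Z : Env) (x : List ℕ) : Set (ℕ → ℝ) := {u | ∀ k, 0 ∈ walk Z x u k}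

lemma meas_staySet (Z : Env) (x : List ℕ) : MeasurableSet (staySet Z x) := by
  have : staySet Z x = ⋂ k, {u | walk Z x u k ∈ {y : List ℕ | 0 ∈ y}} := by
    ext u; simp [staySet]
  rw [this]
  exact MeasurableSet.iInter (fun k => meas_walk_mem Z _ x k)

lemma stay_NT (Z : Env) {x : List ℕ} (hx : 0 ∉ x) : P (staySet Z x) = 0 := by
  have : staySet Z x = ∅ := by
    ext u
    simp only [staySet, Set.mem_ofPred_eq, Set.mem_empty_iff_false, iff_false]
    intro h
    exact hx (h 0)
  rw [this, measure_empty]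

lemma stay_step (Z : Env) {x : List ℕ} (hx : 0 ∈ x) :
    P (staySet Z x) = ∫⁻ s, P (staySet Z (step Z x s)) ∂unif := by
  rw [← prob_step Z x (staySet Z) (meas_staySet Z)]
  congr 1
  ext u
  simp only [staySet, Set.mem_ofPred_eq]
  constructor
  · intro h k
    have := h (k + 1)
    rwa [walk_succ'] at this
  · intro h k
    rcases k with _ | k
    · exact hx
    · rw [walk_succ']; exact h k

lemma stay_leaf {l : List ℕ} (m : ℕ) (hl : 0 ∈ l) :
    P (staySet (ZZ β M) (m :: l)) = P (staySet (ZZ β M) l) := by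
  rw [stay_step _ (List.mem_cons_of_mem _ hl),
    step_cons (ZZ β M) m l (fun y => P (staySet (ZZ β M) y)), ZZ_leaf β M m hl]
  simp

lemma stay_trap {l : List ℕ} (hl : 0 ∉ l) : P (staySet (ZZ β M) (0 :: l)) = 0 := by
  have h1 := stay_step (ZZ β M) (x := 0 :: l) (by simp)
  rw [step_cons (ZZ β M) 0 l (fun y => P (staySet (ZZ β M) y)), ZZ_trap β M hl,
    stay_NT _ hl, zero_add] at h1
  have h2 : ∀ j ∈ Finset.range (M l.length), P (staySet (ZZ β M) (j :: 0 :: l)) =
      P (staySet (ZZ β M) (0 :: l)) := fun j _ => stay_leaf β M j (by simp)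
  rw [Finset.sum_congr rfl h2, Finset.sum_const, Finset.card_range, nsmul_eq_mul] at h1
  set t := P (staySet (ZZ β M) (0 :: l)) with ht
  set m : ℝ≥0∞ := (M l.length : ℝ≥0∞) with hm
  have htop : t ≠ ⊤ := measure_ne_top _ _
  have hmtop : m ≠ ⊤ := ENNReal.natCast_ne_top _
  by_contra hne
  have h3 : (m + 1) * t = m * t := by
    conv_lhs => rw [h1]
    rw [← mul_assoc, ENNReal.mul_inv_cancel (by simp) (by simp [hmtop]), one_mul]
  rw [add_mul, one_mul] at h3
  have h4 : m * t + t = m * t + 0 := by rw [h3, add_zero]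
  have h5 := (ENNReal.add_right_inj (ENNReal.mul_ne_top hmtop htop)).1 h4
  exact hne h5

lemma stay_zero {x : List ℕ} (hx : InTree (ZZ β M) x) : P (staySet (ZZ β M) x) = 0 := by
  by_cases h0 : 0 ∈ x
  · rcases x with _ | ⟨i, u⟩
    · simp at h0
    · by_cases hu : 0 ∈ u
      · rw [stay_leaf β M i hu]
        rcases u with _ | ⟨j, w⟩
        · simp at hu
        · obtain ⟨hx1, hx2⟩ := hx
          have hw : 0 ∉ w := by
            intro hw
            rw [ZZ_leaf β M j hw] at hx2
            omega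
          have hj : j = 0 := by
            rcases List.mem_cons.1 hu with h | h
            · exact h.symm
            · exact absurd h hw
          rw [hj]
          exact stay_trap β M hw
      · have hi : i = 0 := by
          rcases List.mem_cons.1 h0 with h | h
          · exact h.symm
          · exact absurd h hu
        rw [hi]
        exact stay_trap β M hu
  · exact stay_NT _ h0

lemma stay_from (K : ℕ) : ∀ x, InTree (ZZ β M) x →
    P {u | ∀ k, K ≤ k → 0 ∈ walk (ZZ β M) x u k} = 0 := by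
  induction K with
  | zero =>
    intro x hx
    have := stay_zero β M hx
    unfold staySet at this
    simpa using this
  | succ K ih =>
    intro x hx
    have h1 : {u | ∀ k, K + 1 ≤ k → 0 ∈ walk (ZZ β M) x u k} = {u | sft u ∈
        (fun y => {u | ∀ k, K ≤ k → 0 ∈ walk (ZZ β M) y u k}) (step (ZZ β M) x (u 0))} := by
      ext u
      simp only [Set.mem_ofPred_eq]
      constructor
      · intro h k hk
        have := h (k + 1) (by omega)
        rwa [walk_succ'] at this
      · intro h k hk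
        obtain ⟨j, rfl⟩ : ∃ j, k = j + 1 := ⟨k - 1, by omega⟩
        rw [walk_succ']
        exact h j (by omega)
    have hB : ∀ y, MeasurableSet {u | ∀ k, K ≤ k → 0 ∈ walk (ZZ β M) y u k} := by
      intro y
      have : {u | ∀ k, K ≤ k → 0 ∈ walk (ZZ β M) y u k} =
          ⋂ (k : ℕ) (_ : K ≤ k), {u | walk (ZZ β M) y u k ∈ {z : List ℕ | 0 ∈ z}} := by
        ext u; simp
      rw [this]
      exact MeasurableSet.iInter (fun k => MeasurableSet.iInter (fun _ =>
        meas_walk_mem (ZZ β M) _ y k))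
    have h3 := prob_step (ZZ β M) x (fun y => {u | ∀ k, K ≤ k → 0 ∈ walk (ZZ β M) y u k}) hB
    rw [h1]
    refine h3.trans ?_
    have h2 : ∀ s, P {u | ∀ k, K ≤ k → 0 ∈ walk (ZZ β M) (step (ZZ β M) x s) u k} = 0 :=
      fun s => ih _ (inTree_step _ (ZZ_nil_pos β M) hx s)
    simp only [h2, lintegral_zero]

/-- Almost surely the walk eventually moves up at each step, without letter `0`. -/
theorem ae_up (hβ : ∀ n, 6 ≤ β n) (hsum : ∀ N, ∑ j ∈ Finset.range N, aa β j ≤ 1 / 2)
    {x : List ℕ} (hx : InTree (ZZ β M) x) :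
    ∀ᵐ u ∂P, ∃ K, ∀ j, 0 ∉ walk (ZZ β M) x u (K + j) ∧
      (walk (ZZ β M) x u (K + j)).length = (walk (ZZ β M) x u K).length + j := by
  have h2 : ∀ᵐ u ∂P, ∀ K, ¬ ∀ k, K ≤ k → 0 ∈ walk (ZZ β M) x u k := by
    rw [ae_all_iff]
    intro K
    exact measure_eq_zero_iff_ae_notMem.1 (stay_from β M K x hx)
  filter_upwards [ae_finite_bad β M hβ hsum x, h2] with u h1 h2
  obtain ⟨K0, hK0⟩ := eventually_atTop.1 h1
  have h3 := h2 K0
  push Not at h3
  obtain ⟨K, hK, hKx⟩ := h3
  refine ⟨K, fun j => ?_⟩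
  induction j with
  | zero => exact ⟨hKx, rfl⟩
  | succ j ih =>
    have h4 := hK0 (K + j) (by omega)
    simp only [badAt, Set.mem_ofPred_eq, Bad, not_and, not_not] at h4
    obtain ⟨i, hi⟩ := h4 ih.1
    have h5 : K + (j + 1) = K + j + 1 := by omega
    rw [h5, hi]
    refine ⟨?_, ?_⟩
    · intro h
      rcases List.mem_cons.1 h with h | h
      · omega
      · exact ih.1 h
    · rw [List.length_cons, ih.2]; omega

/-- The speed of the walk is one. -/
theorem ae_speed (hβ : ∀ n, 6 ≤ β n) (hsum : ∀ N, ∑ j ∈ Finset.range N, aa β j ≤ 1 / 2)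
    {x : List ℕ} (hx : InTree (ZZ β M) x) :
    ∀ᵐ u ∂P, Tendsto (fun n : ℕ => ((walk (ZZ β M) x u n).length : ℝ) / n) atTop (𝓝 1) := by
  filter_upwards [ae_up β M hβ hsum hx] with u hu
  obtain ⟨K, hK⟩ := hu
  set L : ℕ := (walk (ZZ β M) x u K).length with hL
  have h1 : Tendsto (fun n : ℕ => (1 : ℝ) + ((L : ℝ) - K) / n) atTop (𝓝 (1 + 0)) := by
    refine tendsto_const_nhds.add ?_
    exact tendsto_const_nhds.div_atTop tendsto_natCast_atTop_atTop
  rw [add_zero] at h1
  refine h1.congr' ?_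
  filter_upwards [eventually_ge_atTop (K + 1)] with n hn
  obtain ⟨j, rfl⟩ : ∃ j, n = K + j := ⟨n - K, by omega⟩
  rw [(hK j).2]
  have hpos : (0 : ℝ) < ((K + j : ℕ) : ℝ) := by
    have : 0 < K + j := by omega
    exact_mod_cast this
  field_simp
  push_cast
  ring

end Pool.Agent.R766.FT
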