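import Pool.Agent.R766.FT.Base

/-!
The tree with star traps, and bounds for hitting probabilities.
-/

set_option autoImplicit false

namespace Pool.Agent.R766.FT

open MeasureTheory ProbabilityTheory Filter FrogGW
open scoped ENNReal NNReal Topology

/-- The numbers of children. A word without letter `0` and of length `n` has `β n + 1` children;
the child with letter `0` is a trap. A trap whose parent has length `n` has `M n` children,
which are leaves. -/
def ZZ (β M : ℕ → ℕ) : Env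
  | [] => β 0 + 1
  | 0 :: l => if 0 ∈ l then 0 else M l.length
  | (_ + 1) :: l => if 0 ∈ l then 0 else β (l.length + 1) + 1

variable (β M : ℕ → ℕ)

lemma ZZ_NT {x : List ℕ} (hx : 0 ∉ x) : ZZ β M x = β x.length + 1 := by
  rcases x with _ | ⟨i, l⟩
  · rfl
  · rcases i with _ | i
    · simp at hx
    · have h0 : 0 ∉ l := fun h => hx (List.mem_cons_of_mem _ h)
      simp [ZZ, h0]

lemma ZZ_trap {l : List ℕ} (hl : 0 ∉ l) : ZZ β M (0 :: l) = M l.length := by
  simp [ZZ, hl]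

lemma ZZ_leaf {l : List ℕ} (i : ℕ) (hl : 0 ∈ l) : ZZ β M (i :: l) = 0 := by
  rcases i with _ | i <;> simp [ZZ, hl]

/-- The vertices of length `n` without letter `0`. -/
def Lv : ℕ → Finset (List ℕ)
  | 0 => {[]}
  | n + 1 => (Lv n).biUnion fun x => (Finset.range (β n)).image fun j => (j + 1) :: x

lemma mem_Lv_succ {n : ℕ} {y : List ℕ} :
    y ∈ Lv β (n + 1) ↔ ∃ x ∈ Lv β n, ∃ j < β n, (j + 1) :: x = y := by
  simp [Lv]

lemma Lv_len {n : ℕ} {y : List ℕ} (hy : y ∈ Lv β n) : y.length = n := by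
  induction n generalizing y with
  | zero => simp [Lv] at hy; simp [hy]
  | succ n ih =>
    obtain ⟨x, hx, j, _, rfl⟩ := (mem_Lv_succ β).1 hy
    simp [ih hx]

lemma Lv_NT {n : ℕ} {y : List ℕ} (hy : y ∈ Lv β n) : 0 ∉ y := by
  induction n generalizing y with
  | zero => simp [Lv] at hy; simp [hy]
  | succ n ih =>
    obtain ⟨x, hx, j, _, rfl⟩ := (mem_Lv_succ β).1 hy
    simp [ih hx]

lemma Lv_inTree {n : ℕ} {y : List ℕ} (hy : y ∈ Lv β n) : InTree (ZZ β M) y := by
  induction n generalizing y with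
  | zero => simp [Lv] at hy; simp [hy, InTree]
  | succ n ih =>
    obtain ⟨x, hx, j, hj, rfl⟩ := (mem_Lv_succ β).1 hy
    refine ⟨ih hx, ?_⟩
    rw [ZZ_NT β M (Lv_NT β hx), Lv_len β hx]
    omega

lemma mem_Lv_of {y : List ℕ} (h0 : 0 ∉ y) (hy : InTree (ZZ β M) y) : y ∈ Lv β y.length := by
  induction y with
  | nil => simp [Lv]
  | cons i v ih =>
    have hv : 0 ∉ v := fun h => h0 (List.mem_cons_of_mem _ h)
    have hi : i ≠ 0 := by rintro rfl; simp at h0
    obtain ⟨hy1, hy2⟩ := hy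
    rw [ZZ_NT β M hv] at hy2
    obtain ⟨j, rfl⟩ : ∃ j, i = j + 1 := ⟨i - 1, by omega⟩
    rw [List.length_cons, mem_Lv_succ]
    exact ⟨v, ih hv hy1, j, by omega, rfl⟩

/-- Products of degrees. -/
def Dg (n : ℕ) : ℕ := ∏ j ∈ Finset.range (n + 1), (β j + 2)

lemma Dg_succ (n : ℕ) : Dg β (n + 1) = Dg β n * (β (n + 1) + 2) := by
  unfold Dg
  rw [Finset.prod_range_succ]

lemma Dg_pos (n : ℕ) : 0 < Dg β n := Finset.prod_pos (fun j _ => by omega)

lemma card_Lv (n : ℕ) : (Lv β (n + 1)).card ≤ Dg β n := by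
  induction n with
  | zero =>
    unfold Lv
    refine Finset.card_biUnion_le.trans ?_
    simp only [Lv, Finset.sum_singleton]
    refine Finset.card_image_le.trans ?_
    simp [Dg]
  | succ n ih =>
    have h1 : (Lv β (n + 1 + 1)).card ≤ ∑ x ∈ Lv β (n + 1), β (n + 1) := by
      rw [Lv]
      refine Finset.card_biUnion_le.trans (Finset.sum_le_sum (fun x _ => ?_))
      refine Finset.card_image_le.trans ?_
      simp
    rw [Finset.sum_const, smul_eq_mul] at h1
    rw [Dg_succ]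
    exact h1.trans (Nat.mul_le_mul ih (by omega))

lemma card_Lv' (n : ℕ) : (Lv β n).card ≤ Dg β n := by
  rcases n with _ | n
  · have := Dg_pos β 0
    simp only [Lv, Finset.card_singleton]; exact this
  · refine (card_Lv β n).trans ?_
    rw [Dg_succ]
    exact Nat.le_mul_of_pos_right _ (by omega)

lemma ZZ_nil_pos : 1 ≤ ZZ β M [] := by simp [ZZ]

/-! ### Hitting probabilities -/

lemma down_NT (A : Set (List ℕ)) {i : ℕ} {v : List ℕ} (h0 : 0 ∉ i :: v) :
    hp (ZZ β M) A v ≤ ((β (v.length + 1) : ℝ) + 2) * hp (ZZ β M) A (i :: v) := by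
  have h1 := hp_cons (ZZ β M) A i v
  rw [ZZ_NT β M h0, List.length_cons] at h1
  have h2 : 0 ≤ ∑ j ∈ Finset.range (β (v.length + 1) + 1), hp (ZZ β M) A (j :: i :: v) :=
    Finset.sum_nonneg (fun j _ => hp_nonneg _ _ _)
  push_cast at h1
  nlinarith

lemma down_leaf (A : Set (List ℕ)) {l : List ℕ} (m : ℕ) (hl : 0 ∈ l) :
    hp (ZZ β M) A l ≤ hp (ZZ β M) A (m :: l) := by
  have h1 := hp_cons (ZZ β M) A m l
  rw [ZZ_leaf β M m hl] at h1
  simpa using h1

lemma down_trap (A : Set (List ℕ)) {l : List ℕ} (hl : 0 ∉ l) :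
    hp (ZZ β M) A l ≤ hp (ZZ β M) A (0 :: l) := by
  have h1 := hp_cons (ZZ β M) A 0 l
  rw [ZZ_trap β M hl] at h1
  have h2 : (M l.length : ℝ) * hp (ZZ β M) A (0 :: l) ≤
      ∑ j ∈ Finset.range (M l.length), hp (ZZ β M) A (j :: 0 :: l) := by
    rw [← nsmul_eq_mul, ← Finset.card_range (M l.length), ← Finset.sum_const, Finset.card_range]
    exact Finset.sum_le_sum (fun j _ => down_leaf β M A j (by simp))
  nlinarith

lemma hit_root {l : List ℕ} (hl : 0 ∉ l) :
    1 ≤ (Dg β l.length : ℝ) * hp (ZZ β M) {[]} l := by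
  induction l with
  | nil =>
    rw [hp_mem _ _ (Set.mem_singleton _), mul_one]
    exact_mod_cast Dg_pos β 0
  | cons i v ih =>
    have hv : 0 ∉ v := fun h => hl (List.mem_cons_of_mem _ h)
    have h1 := ih hv
    have h2 := down_NT β M {[]} hl
    rw [List.length_cons, Dg_succ]
    push_cast
    have h3 : (0 : ℝ) ≤ Dg β v.length := by positivity
    calc (1 : ℝ) ≤ (Dg β v.length : ℝ) * hp (ZZ β M) {[]} v := h1
      _ ≤ (Dg β v.length : ℝ) * (((β (v.length + 1) : ℝ) + 2) * hp (ZZ β M) {[]} (i :: v)) := by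
          gcongr
      _ = _ := by ring

lemma hit_root_leaf {l : List ℕ} (hl : 0 ∉ l) (m : ℕ) :
    1 ≤ (Dg β l.length : ℝ) * hp (ZZ β M) {[]} (m :: 0 :: l) := by
  refine (hit_root β M hl).trans ?_
  have h1 := (down_trap β M {[]} hl).trans (down_leaf β M {[]} m (l := 0 :: l) (by simp))
  gcongr

lemma capture (A : Set (List ℕ)) {l : List ℕ} (hl : 0 ∉ l) {m : ℕ} (hm : m < M l.length)
    (hA : m :: 0 :: l ∈ A) : 1 / 2 ≤ hp (ZZ β M) A (0 :: l) := by
  classical
  have h1 := hp_cons (ZZ β M) A 0 l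
  rw [ZZ_trap β M hl] at h1
  set t := hp (ZZ β M) A (0 :: l) with ht
  have h2 : ∑ j ∈ Finset.range (M l.length), (t + if j = m then (1 - t) else 0) ≤
      ∑ j ∈ Finset.range (M l.length), hp (ZZ β M) A (j :: 0 :: l) := by
    refine Finset.sum_le_sum (fun j _ => ?_)
    by_cases hj : j = m
    · subst hj
      rw [hp_mem _ _ hA]; simp
    · rw [if_neg hj, add_zero]
      exact down_leaf β M A j (by simp)
  rw [Finset.sum_add_distrib, Finset.sum_ite_eq', if_pos (Finset.mem_range.2 hm),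
    Finset.sum_const, Finset.card_range, nsmul_eq_mul] at h2
  have h3 := hp_nonneg (ZZ β M) A l
  nlinarith

/-- `A` meets the leaves of every trap above level `n`. -/
def Full (n : ℕ) (A : Set (List ℕ)) : Prop := ∀ x ∈ Lv β n, ∃ m < M n, m :: 0 :: x ∈ A

lemma sum_children (A : Set (List ℕ)) {x : List ℕ} (hx : 0 ∉ x) :
    ∑ j ∈ Finset.range (β x.length + 1), hp (ZZ β M) A (j :: x)
      ≤ ((β x.length : ℝ) + 2) * hp (ZZ β M) A x := by
  rcases x with _ | ⟨i, v⟩
  · have h1 := hp_nil (ZZ β M) (ZZ_nil_pos β M) A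
    rw [ZZ_NT β M hx] at h1
    have h2 := hp_nonneg (ZZ β M) A []
    push_cast at h1
    linarith
  · have h1 := hp_cons (ZZ β M) A i v
    rw [ZZ_NT β M hx] at h1
    have h2 := hp_nonneg (ZZ β M) A v
    push_cast at h1
    linarith

lemma hit_last {n : ℕ} {A : Set (List ℕ)} (hA : Full β M n A) {x : List ℕ} (hx : x ∈ Lv β n) :
    1 / (2 * ((β n : ℝ) + 2)) ≤ hp (ZZ β M) A x := by
  have hxl := Lv_len β hx
  have hx0 := Lv_NT β hx
  obtain ⟨m, hm, hmA⟩ := hA x hx
  have h1 : 1 / 2 ≤ hp (ZZ β M) A (0 :: x) := capture β M A hx0 (by rw [hxl]; exact hm) hmA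
  have h2 := sum_children β M A hx0
  have h3 : hp (ZZ β M) A (0 :: x) ≤
      ∑ j ∈ Finset.range (β x.length + 1), hp (ZZ β M) A (j :: x) :=
    Finset.single_le_sum (f := fun j => hp (ZZ β M) A (j :: x)) (fun j _ => hp_nonneg _ _ _)
      (Finset.mem_range.2 (by omega))
  rw [hxl] at h2 h3
  rw [div_le_iff₀ (by positivity)]
  linarith

/-- The probability of a bad step. -/
noncomputable def aa (n : ℕ) : ℝ := 2 / ((β n : ℝ) + 2)

lemma aa_nonneg (n : ℕ) : 0 ≤ aa β n := by unfold aa; positivity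

lemma hit_level {n : ℕ} {A : Set (List ℕ)} (hA : Full β M n A) (k : ℕ) :
    ∀ m, m + k = n → (∑ j ∈ Finset.Ico m n, aa β j ≤ 1) → ∀ x ∈ Lv β m,
      (1 - ∑ j ∈ Finset.Ico m n, aa β j) * (1 / (2 * ((β n : ℝ) + 2))) ≤ hp (ZZ β M) A x := by
  induction k with
  | zero =>
    intro m hm _ x hx
    obtain rfl : m = n := by omega
    simp only [Finset.Ico_self, Finset.sum_empty, sub_zero, one_mul]
    exact hit_last β M hA hx
  | succ k ih =>
    intro m hm hle x hx
    have hxl := Lv_len β hx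
    have hx0 := Lv_NT β hx
    have hsplit : ∑ j ∈ Finset.Ico m n, aa β j = aa β m + ∑ j ∈ Finset.Ico (m + 1) n, aa β j :=
      Finset.sum_eq_sum_Ico_succ_bot (by omega) _
    have ha := aa_nonneg β m
    have hS : 0 ≤ ∑ j ∈ Finset.Ico (m + 1) n, aa β j := Finset.sum_nonneg (fun j _ => aa_nonneg β j)
    set S := ∑ j ∈ Finset.Ico (m + 1) n, aa β j with hSdef
    set ρ : ℝ := 1 / (2 * ((β n : ℝ) + 2)) with hρ
    have hρ0 : 0 ≤ ρ := by positivity
    have hS1 : S ≤ 1 := by linarith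
    have h1 := ih (m + 1) (by omega) hS1
    have h2 := sum_children β M A hx0
    rw [hxl, Finset.sum_range_succ'] at h2
    have h3 : (β m : ℝ) * ((1 - S) * ρ) ≤
        ∑ j ∈ Finset.range (β m), hp (ZZ β M) A ((j + 1) :: x) := by
      rw [← nsmul_eq_mul, ← Finset.card_range (β m), ← Finset.sum_const, Finset.card_range]
      refine Finset.sum_le_sum (fun j hj => ?_)
      exact h1 _ ((mem_Lv_succ β).2 ⟨x, hx, j, Finset.mem_range.1 hj, rfl⟩)
    have h4 := hp_nonneg (ZZ β M) A (0 :: x)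
    have h5 : (β m : ℝ) * ((1 - S) * ρ) ≤ ((β m : ℝ) + 2) * hp (ZZ β M) A x := by linarith
    have h6 : (β m : ℝ) = (1 - aa β m) * ((β m : ℝ) + 2) := by
      unfold aa; field_simp; ring
    rw [hsplit]
    have h7 : (1 - (aa β m + S)) * ρ ≤ (1 - aa β m) * ((1 - S) * ρ) := by
      have : 0 ≤ aa β m * S * ρ := by positivity
      nlinarith
    refine h7.trans ?_
    have h8 : (0 : ℝ) < (β m : ℝ) + 2 := by positivity
    have h9 : ((β m : ℝ) + 2) * ((1 - aa β m) * ((1 - S) * ρ)) ≤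
        ((β m : ℝ) + 2) * hp (ZZ β M) A x := by
      calc ((β m : ℝ) + 2) * ((1 - aa β m) * ((1 - S) * ρ))
          = ((1 - aa β m) * ((β m : ℝ) + 2)) * ((1 - S) * ρ) := by ring
        _ = (β m : ℝ) * ((1 - S) * ρ) := by rw [← h6]
        _ ≤ _ := h5
    exact le_of_mul_le_mul_left h9 h8

lemma hit_bound {n : ℕ} {A : Set (List ℕ)} (hA : Full β M n A)
    (hsum : ∀ N, ∑ j ∈ Finset.range N, aa β j ≤ 1 / 2) {m : ℕ} (hm : m ≤ n) {x : List ℕ}
    (hx : x ∈ Lv β m) : 1 / (4 * ((β n : ℝ) + 2)) ≤ hp (ZZ β M) A x := by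
  have h1 : ∑ j ∈ Finset.Ico m n, aa β j ≤ 1 / 2 := by
    refine le_trans (Finset.sum_le_sum_of_subset_of_nonneg ?_ (fun j _ _ => aa_nonneg β j)) (hsum n)
    intro j hj
    exact Finset.mem_range.2 (Finset.mem_Ico.1 hj).2
  have h2 := hit_level β M hA (n - m) m (by omega) (by linarith) x hx
  refine le_trans ?_ h2
  have h3 : (0 : ℝ) ≤ 1 / (2 * ((β n : ℝ) + 2)) := by positivity
  calc 1 / (4 * ((β n : ℝ) + 2)) = (1 / 2) * (1 / (2 * ((β n : ℝ) + 2))) := by
        field_simp; ring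
    _ ≤ _ := by
        apply mul_le_mul_of_nonneg_right _ h3
        linarith

end Pool.Agent.R766.FT
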